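import Pool.Agent.Q227.AL.Shr

/-!
# Universal covers of Anosov diffeomorphisms with many functions that satisfy a linear recurrence

Let `f` be an Anosov diffeomorphism of a closed connected manifold `M`. A continuous function
`u : M → ℝ/ℤ` satisfies a linear recurrence along `f` if
`u(f^k x) = c_0 u(x) + c_1 u(f x) + ... + c_(k-1) u(f^(k-1) x) + b` for all `x`, with integers `c_j`
and a constant `b`. We show that `M` is covered by Euclidean space, that `f` has global product
structure and is topologically transitive, if on every small nontrivial continuum of an unstable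
leaf some function of this kind (depending on the continuum) is not constant. For instance it is
enough that there is a continuous map `φ : M → ℝᵏ/ℤᵏ`, not assumed to be surjective, that collapses
no nontrivial continuum of an unstable leaf and satisfies `φ ∘ f = A ∘ φ + c` for an integer matrix
`A`, which is not assumed to be hyperbolic or invertible.
-/

set_option autoImplicit false

open scoped Manifold ContDiff Topology
open Set Filter

namespace Pool.Agent.Results.MP_0a0487_an.ContinuaRecurrences

open Pool.Agent.H721R2 Pool.Agent.H789R2.AN Pool.Agent.TH289.K Pool.Agent.TH289.L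
open Pool.Agent.Q227.AT (Rec)
open Pool.Agent.Q227.AL (man_fam)
open Pool.Agent.W740.TU (anosov_symm)

/-- **Universal covers and functions with a linear recurrence.**
Let `f` be a `C¹` Anosov diffeomorphism of a closed connected smooth manifold `M` modelled on the
finite-dimensional space `E`. Suppose that one of the following holds.
* (a) For some neighbourhood `𝒲` of the diagonal, for every compact connected set `C ⊆ M` with more
  than one point such that any two points of `f⁻ⁿ(C)` are `𝒲`-close for all `n ≥ 0`, there is a
  continuous function `u : M → ℝ/ℤ` that is not constant on `C` and satisfies a linear recurrence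
  along `f` (`Rec f u`): `u(f^k x) = ∑_{j < k} c_j u(f^j x) + b` for all `x`, with integers `c_j` and
  a constant `b` (`u`, `k`, `c_j`, `b` may depend on `C`).
* (b) The same with `f` and `f⁻¹` interchanged: for every compact connected set `C ⊆ M` with more
  than one point such that any two points of `fⁿ(C)` are `𝒲`-close for all `n ≥ 0`, there is a
  continuous function `u : M → ℝ/ℤ`, not constant on `C`, with a linear recurrence along `f⁻¹`.
* (c) There are a number `k`, an integer `k × k` matrix `A` (any matrix), `c ∈ ℝᵏ/ℤᵏ` and a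
  continuous map `φ : M → ℝᵏ/ℤᵏ` (not assumed to be surjective) with `φ ∘ f = A ∘ φ + c` that
  collapses no nontrivial continuum of an unstable leaf (`Light f.symm φ`).

Then `f` is topologically transitive and has global product structure (`GPS`: each stable path and
each unstable path with the same initial point span a rectangle), and `M` is covered by Euclidean
space: there is a surjective covering map `E → M`. -/
theorem result (E : Type*) [NormedAddCommGroup E] [NormedSpace ℝ E] [FiniteDimensional ℝ E]
    (M : Type*) [TopologicalSpace M] [T2Space M] [CompactSpace M] [ConnectedSpace M]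
    [ChartedSpace E M] [IsManifold 𝓘(ℝ, E) ∞ M] (f : Diffeomorph 𝓘(ℝ, E) 𝓘(ℝ, E) M M 1)
    (Es Eu : ∀ x : M, Submodule ℝ (TangentSpace 𝓘(ℝ, E) x)) (hA : IsAnosov f Es Eu)
    (h : (∃ 𝒲 ∈ 𝓝ˢ (diagonal M), ∀ C : Set M, IsCompact C → IsPreconnected C → C.Nontrivial →
          (∀ n : ℕ, ∀ x ∈ C, ∀ y ∈ C, (f.symm^[n] x, f.symm^[n] y) ∈ 𝒲) →
          ∃ u, Rec f u ∧ ∃ x ∈ C, ∃ y ∈ C, u x ≠ u y) ∨
      (∃ 𝒲 ∈ 𝓝ˢ (diagonal M), ∀ C : Set M, IsCompact C → IsPreconnected C → C.Nontrivial →
          (∀ n : ℕ, ∀ x ∈ C, ∀ y ∈ C, (f^[n] x, f^[n] y) ∈ 𝒲) →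
          ∃ u, Rec f.symm u ∧ ∃ x ∈ C, ∃ y ∈ C, u x ≠ u y) ∨
      (∃ (k : ℕ) (A : Matrix (Fin k) (Fin k) ℤ) (c : Fin k → AddCircle (1 : ℝ))
          (φ : C(M, Fin k → AddCircle (1 : ℝ))),
          (∀ x i, φ (f x) i = ∑ j, A i j • φ x j + c i) ∧ Light f.toHomeomorph.symm φ)) :
    TopTransitive f ∧ GPS f.toHomeomorph ∧ ∃ π : E → M, IsCoveringMap π ∧ Function.Surjective π := by
  have key : GPS f.toHomeomorph := by
    rcases h with ⟨𝒲, h𝒲, h⟩ | ⟨𝒲, h𝒲, h⟩ | ⟨k, A, c, φ, h1, h2⟩
    · exact (man_fam f Es Eu hA h𝒲 h).1
    · have h2 := (man_fam f.symm Eu Es (anosov_symm f Es Eu hA) h𝒲 h).1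
      exact GPS.symm (show GPS f.toHomeomorph.symm from h2)
    · exact (Pool.Agent.Q227.AL.man_light f Es Eu hA φ φ.continuous A c h1 h2).1
  obtain ⟨h1, h2⟩ := man_self f Es Eu hA key
  exact ⟨h1, key, h2⟩

end Pool.Agent.Results.MP_0a0487_an.ContinuaRecurrences
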