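import Pool.Agent.Q227.AG.Light

/-!
# Universal covers of Anosov diffeomorphisms whose unstable continua are displaced in homology

Let `f` be an Anosov diffeomorphism of a closed connected manifold `M`. For a path `γ` in an unstable
leaf the homological size of the long path `fⁿ ∘ γ` is measured by continuous functions
`u : M → ℝ/ℤ`: a lift `θ` to `ℝ` of the path `u ∘ fⁿ ∘ γ` has a displacement `|θ 1 - θ 0|`. It is
proved that `M` is covered by Euclidean space, that `f` has global product structure and is
topologically transitive, if every small nontrivial continuum of an unstable leaf contains the ends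
of a path `γ` in the leaf such that the displacements of some `u` are not bounded by a polynomial in
`n`. The path and `u` may depend on the continuum.
-/

set_option autoImplicit false

open scoped Manifold ContDiff Topology
open Set Filter

namespace Pool.Agent.Results.MP_0a0487_an.DisplacedContinua

open Pool.Agent.H721R2 Pool.Agent.H789R2.AN Pool.Agent.TH289.K Pool.Agent.TH289.L
open Pool.Agent.Q227.AG
open Pool.Agent.W740.TC (UnstablePath)
open Pool.Agent.W740.TU (anosov_symm)

/-- **Universal covers and the homological growth of unstable paths.**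
Let `f` be a `C¹` Anosov diffeomorphism of a closed connected smooth manifold `M` modelled on the
finite-dimensional space `E`. Suppose that one of the following holds.
* (a) For some neighbourhood `𝒲` of the diagonal, for every compact connected set `C ⊆ M` with more
  than one point such that any two points of `f⁻ⁿ(C)` are `𝒲`-close for all `n ≥ 0`, there are a path
  `γ` in an unstable leaf (`UnstablePath f.symm γ`) with both ends in `C` and a continuous function
  `u : M → ℝ/ℤ` whose displacements along the paths `fⁿ ∘ γ` are not bounded by a polynomial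
  (`Superpoly f u γ`): for every `d` there are arbitrarily large `n` such that a lift `θ` to `ℝ` of
  the path `u ∘ fⁿ ∘ γ` satisfies `|θ 1 - θ 0| ≥ nᵈ`.
* (b) The same with `f` and `f⁻¹` interchanged: for every compact connected set `C ⊆ M` with more
  than one point such that any two points of `fⁿ(C)` are `𝒲`-close for all `n ≥ 0`, there are a path
  `γ` in a stable leaf with both ends in `C` and a continuous function `u : M → ℝ/ℤ` with
  `Superpoly f.symm u γ`.

Then `f` is topologically transitive and has global product structure (`GPS`: each stable path and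
each unstable path with the same initial point span a rectangle), and `M` is covered by Euclidean
space: there is a surjective covering map `E → M`. -/
theorem result (E : Type*) [NormedAddCommGroup E] [NormedSpace ℝ E] [FiniteDimensional ℝ E]
    (M : Type*) [TopologicalSpace M] [T2Space M] [CompactSpace M] [ConnectedSpace M]
    [ChartedSpace E M] [IsManifold 𝓘(ℝ, E) ∞ M] (f : Diffeomorph 𝓘(ℝ, E) 𝓘(ℝ, E) M M 1)
    (Es Eu : ∀ x : M, Submodule ℝ (TangentSpace 𝓘(ℝ, E) x)) (hA : IsAnosov f Es Eu)
    (h : (∃ 𝒲 ∈ 𝓝ˢ (diagonal M), ∀ C : Set M, IsCompact C → IsPreconnected C → C.Nontrivial →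
          (∀ n : ℕ, ∀ x ∈ C, ∀ y ∈ C, (f.symm^[n] x, f.symm^[n] y) ∈ 𝒲) →
          ∃ (u : C(M, AddCircle (1 : ℝ))) (γ : C(unitInterval, M)), UnstablePath f.symm γ ∧
            γ 0 ∈ C ∧ γ 1 ∈ C ∧ Superpoly f u γ) ∨
      (∃ 𝒲 ∈ 𝓝ˢ (diagonal M), ∀ C : Set M, IsCompact C → IsPreconnected C → C.Nontrivial →
          (∀ n : ℕ, ∀ x ∈ C, ∀ y ∈ C, (f^[n] x, f^[n] y) ∈ 𝒲) →
          ∃ (u : C(M, AddCircle (1 : ℝ))) (γ : C(unitInterval, M)), UnstablePath f γ ∧
            γ 0 ∈ C ∧ γ 1 ∈ C ∧ Superpoly f.symm u γ)) :
    TopTransitive f ∧ GPS f.toHomeomorph ∧ ∃ π : E → M, IsCoveringMap π ∧ Function.Surjective π := by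
  have key : GPS f.toHomeomorph := by
    rcases h with h | h
    · exact man_cont_circ f Es Eu hA h
    · have h2 := man_cont_circ f.symm Eu Es (anosov_symm f Es Eu hA) h
      exact GPS.symm (show GPS f.toHomeomorph.symm from h2)
  obtain ⟨h1, h2⟩ := man_self f Es Eu hA key
  exact ⟨h1, key, h2⟩

end Pool.Agent.Results.MP_0a0487_an.DisplacedContinua
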