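import Pool.Agent.Y331.EP.Trans
import Pool.Agent.TH289.L.P3

/-!
# MP_0a0487_an: Anosov diffeomorphisms as large as a factor with global product structure: coverings
-/

set_option autoImplicit false

open scoped Manifold ContDiff Topology
open Set Filter

namespace Pool.Agent.Results.MP_0a0487_an.EntropyFactorCovered

open Pool.Agent.H721R2 Pool.Agent.H789R2.AN Pool.Agent.TH289 Pool.Agent.TH289.K Pool.Agent.TH289.L
open Pool.Agent.Y331.EP

/-- **Universal covers of manifolds with an Anosov diffeomorphism which has the entropy, or the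
number of periodic points, of a factor with global product structure.**
Let `g` be a `C¹` Anosov diffeomorphism of a closed connected manifold `M'` with global product
structure (`GPS`: each stable path and each unstable path with the same initial point span a
rectangle; for instance a hyperbolic automorphism of an infranilmanifold).  Let `f` be a
topologically transitive `C¹` Anosov diffeomorphism of a closed connected manifold `M` with
`dim M' ≤ dim M`, and let `h` be a continuous map of `M` onto `M'` with `h ∘ f = g ∘ h`.  Suppose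
that the topological entropy of `f` is not larger than that of `g`, or that there is a constant `C`
with `#Fix(fⁿ) ≤ C · #Fix(gⁿ)` for infinitely many `n`.  Nothing is assumed about the fibres of `h`.

Then `M` is covered by Euclidean space of dimension `dim M`. -/
theorem result (E : Type*) [NormedAddCommGroup E] [NormedSpace ℝ E] [FiniteDimensional ℝ E]
    (M : Type*) [MetricSpace M] [CompactSpace M] [ConnectedSpace M]
    [ChartedSpace E M] [IsManifold 𝓘(ℝ, E) ∞ M] (f : Diffeomorph 𝓘(ℝ, E) 𝓘(ℝ, E) M M 1)
    (Es Eu : ∀ x : M, Submodule ℝ (TangentSpace 𝓘(ℝ, E) x)) (hf : IsAnosov f Es Eu)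
    (hft : TopTransitive f)
    (E' : Type*) [NormedAddCommGroup E'] [NormedSpace ℝ E'] [FiniteDimensional ℝ E']
    (M' : Type*) [MetricSpace M'] [CompactSpace M'] [ConnectedSpace M']
    [ChartedSpace E' M'] [IsManifold 𝓘(ℝ, E') ∞ M'] (g : Diffeomorph 𝓘(ℝ, E') 𝓘(ℝ, E') M' M' 1)
    (Es' Eu' : ∀ x : M', Submodule ℝ (TangentSpace 𝓘(ℝ, E') x)) (hg : IsAnosov g Es' Eu')
    (hG : GPS g.toHomeomorph) (hdim : Module.finrank ℝ E' ≤ Module.finrank ℝ E)
    (h : C(M, M')) (hs : Function.Surjective h) (hfg : ∀ x, h (f x) = g (h x))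
    (hsize : Dynamics.coverEntropy f univ ≤ Dynamics.coverEntropy g univ ∨
      ∃ C : ℕ, ∃ᶠ n in atTop, {x | f^[n] x = x}.ncard ≤ C * {y | g^[n] y = y}.ncard) :
    ∃ π : E → M, IsCoveringMap π ∧ Function.Surjective π := by
  have ht := man_over' f Es Eu hf g Es' Eu' hg hG hdim h h.continuous hs hfg
  have h6 : IsCoveringMap h ∧ (∀ y, (h ⁻¹' {y}).Finite) ∧ GPS f.toHomeomorph := by
    have k05 := ht.out 0 5
    have k15 := ht.out 1 5
    rcases hsize with h1 | h1
    · exact k05.1 ⟨hft, h1⟩
    · exact k15.1 ⟨hft, h1⟩
  exact (man_self f Es Eu hf h6.2.2).2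

end Pool.Agent.Results.MP_0a0487_an.EntropyFactorCovered
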