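import Pool.Agent.Y331.EP.Trans
import Pool.Agent.TH289.L.P4
import Pool.Agent.Q227.Cov.Open

/-!
# MP_0a0487_an: Anosov diffeomorphisms with an open factor on a space covered by Euclidean space
-/

set_option autoImplicit false

open scoped Manifold ContDiff Topology
open Set Filter

namespace Pool.Agent.Results.MP_0a0487_an.OpenFactorsCovered

open Pool.Agent.H721R2 Pool.Agent.H789R2.AN Pool.Agent.TH289 Pool.Agent.TH289.K Pool.Agent.TH289.L
open Pool.Agent.Y331.EP

/-- **Universal covers of manifolds with an Anosov diffeomorphism which has an open factor.**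
Let `f` be a `C¹` Anosov diffeomorphism of a closed connected manifold `M`, let `g` be an expansive,
topologically transitive homeomorphism of a compact metric space `Y`, and let `h` be a continuous
open map of `M` onto `Y` with `h ∘ f = g ∘ h`.  Suppose that there is a covering map of a
finite-dimensional real vector space `E'` onto `Y` (no smooth structure on `Y`, no relation between
the dimensions and no global product structure of `g` is assumed), and that one of the following
holds.
* `f` is topologically transitive and `h_top(f) ≤ h_top(g)`.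
* `f` is topologically transitive, and `#Fix(fⁿ) ≤ C · #Fix(gⁿ)` for some `C` and infinitely many
  `n`.
* `f` is topologically transitive and the fibres of `h` are countable.
* `h` takes different values at two different points that are both forward and backward asymptotic.
* There is `B` such that, for every `x`, at most `B` points that are both forward and backward
  asymptotic to `x` have the same image as `x`.
* One fibre of `h`, over a point with dense two-sided orbit, is finite.

Then `dim E' = dim M`, `f` is topologically transitive, `h` is a covering map with finite fibres, and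
`M` is covered by Euclidean space: there is a covering map of `E` onto `M`, `E` the vector space on
which `M` is modelled. -/
theorem result (E : Type*) [NormedAddCommGroup E] [NormedSpace ℝ E] [FiniteDimensional ℝ E]
    (M : Type*) [MetricSpace M] [CompactSpace M] [ConnectedSpace M]
    [ChartedSpace E M] [IsManifold 𝓘(ℝ, E) ∞ M] (f : Diffeomorph 𝓘(ℝ, E) 𝓘(ℝ, E) M M 1)
    (Es Eu : ∀ x : M, Submodule ℝ (TangentSpace 𝓘(ℝ, E) x)) (hf : IsAnosov f Es Eu)
    (Y : Type*) [MetricSpace Y] [CompactSpace Y] (g : Y ≃ₜ Y) (hg : Expansive g)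
    (ht : TopTransitive g) (h : C(M, Y)) (hopen : IsOpenMap h) (hs : Function.Surjective h)
    (hfg : ∀ x, h (f x) = g (h x))
    (E' : Type*) [NormedAddCommGroup E'] [NormedSpace ℝ E'] [FiniteDimensional ℝ E']
    (q' : E' → Y) (hq' : IsCoveringMap q') (hqs' : Function.Surjective q')
    (hsize : (TopTransitive f ∧ Dynamics.coverEntropy f univ ≤ Dynamics.coverEntropy g univ) ∨
      (TopTransitive f ∧ ∃ C : ℕ, ∃ᶠ n in atTop,
        {x | f^[n] x = x}.ncard ≤ C * {y | g^[n] y = y}.ncard) ∨
      (TopTransitive f ∧ ∀ y, (h ⁻¹' {y}).Countable) ∨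
      (∀ x y, h x = h y → Asym f x y → Asym f.symm x y → x = y) ∨
      (∃ B : ℕ, ∀ x, {y | h y = h x ∧ Asym f x y ∧ Asym f.symm x y}.encard ≤ B) ∨
      ∃ y₀ : Y, (h ⁻¹' {y₀}).Finite ∧ Dense {z | ∃ n : ℕ, g^[n] y₀ = z ∨ g^[n] z = y₀}) :
    Module.finrank ℝ E' = Module.finrank ℝ E ∧ TopTransitive f ∧ IsCoveringMap h ∧
      (∀ y, (h ⁻¹' {y}).Finite) ∧ ∃ q : E → M, IsCoveringMap q ∧ Function.Surjective q := by
  have hT := man_open_trans f Es Eu hf g hg ht h h.continuous hopen hs hfg
  have h7 : TopTransitive f ∧ IsCoveringMap h ∧ ∀ y, (h ⁻¹' {y}).Finite := by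
    have k0 := hT.out 0 6
    have k1 := hT.out 1 6
    have k2 := hT.out 2 6
    have k3 := hT.out 3 6
    have k4 := hT.out 4 6
    rcases hsize with h1 | h1 | h1 | h1 | h1 | ⟨y₀, h1, h2⟩
    · exact k0.1 h1
    · exact k1.1 h1
    · exact k2.1 h1
    · exact k3.1 h1
    · exact k4.1 h1
    · obtain ⟨a, b, -, c⟩ := man_open f Es Eu hf g hg ht h h.continuous hopen hfg h1 h2
      exact ⟨a, b, c⟩
  obtain ⟨hd, hq⟩ := Pool.Agent.Q227.Cov.cover_lift (E := E) h7.2.1 hs hq' hqs'
  exact ⟨hd, h7.1, h7.2.1, h7.2.2, hq⟩

end Pool.Agent.Results.MP_0a0487_an.OpenFactorsCovered
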